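import Mathlib
import Pool.Agent.MP_ec11a7_an.H29.Degree
import Pool.Agent.MP_98f34a_gt.H5.Defs

/-!
Brouwer's fixed point theorem for continuous maps with bounded range.
-/

namespace Pool.Agent.MP_98f34a_gt.H36

open Metric Set Filter Topology
open scoped Manifold ContDiff

theorem brouwer_euclid {E : Type} [NormedAddCommGroup E] [InnerProductSpace ℝ E]
    [FiniteDimensional ℝ E] (g : E → E) (hg : Continuous g) (R : ℝ) (hR : ∀ w, ‖g w‖ ≤ R) :
    ∃ w, g w = w := by
  by_contra hno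
  have hR0 : 0 ≤ R := (norm_nonneg _).trans (hR 0)
  let c : E → E := fun y => max 0 (min 1 (R + 2 - ‖y‖)) • g y
  have hc : Continuous c := by fun_prop
  have hc0 : ∀ y, R + 2 ≤ ‖y‖ → c y = 0 := fun y hy => by
    simp only [c]
    rw [max_eq_left (min_le_of_right_le (by linarith)), zero_smul]
  have hne : ∀ y, 0 < ‖y - c y‖ := fun y => by
    refine norm_pos_iff.2 (sub_ne_zero.2 fun h => ?_)
    by_cases hy : ‖y‖ ≤ R + 1
    · refine hno ⟨y, ?_⟩
      simp only [c] at h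
      rw [min_eq_left (by linarith), max_eq_right zero_le_one, one_smul] at h
      exact h.symm
    · have : ‖c y‖ ≤ R := by
        simp only [c]
        rw [norm_smul, Real.norm_of_nonneg (le_max_left _ _)]
        exact (mul_le_of_le_one_left (norm_nonneg _)
          (max_le zero_le_one (min_le_left _ _))).trans (hR y)
      rw [← h] at this
      linarith
  obtain ⟨y₀, -, hy₀⟩ := (isCompact_closedBall (0 : E) (R + 3)).exists_isMinOn
    ⟨0, mem_closedBall_self (by linarith)⟩ (f := fun y => ‖y - c y‖) (by fun_prop)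
  obtain ⟨η, hη, hη1, hη2⟩ : ∃ η : ℝ, 0 < η ∧ η ≤ 1 ∧ 2 * η ≤ ‖y₀ - c y₀‖ :=
    ⟨min 1 (‖y₀ - c y₀‖ / 2), lt_min one_pos (by linarith [hne y₀]), min_le_left _ _,
      by linarith [min_le_right 1 (‖y₀ - c y₀‖ / 2)]⟩
  let t : E → Set E := fun y => ball (c y) η ∩ {v | R + 3 ≤ ‖y‖ → v = 0}
  have ht : ∀ y, Convex ℝ (t y) := fun y => (convex_ball _ _).inter fun u hu v hv a b _ _ _ h => by
    rw [hu h, hv h, smul_zero, smul_zero, add_zero]
  have hloc : ∀ y, ∃ b : E, ∀ᶠ y' in 𝓝 y, b ∈ t y' := fun y => by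
    by_cases hy : ‖y‖ < R + 3
    · refine ⟨c y, ?_⟩
      filter_upwards [(isOpen_lt continuous_norm continuous_const).mem_nhds hy,
        hc.continuousAt.eventually (ball_mem_nhds (c y) hη)] with y' h1 h2
      exact ⟨mem_ball_comm.1 h2, fun h => absurd h1 (not_lt.2 h)⟩
    · refine ⟨0, ?_⟩
      filter_upwards [(isOpen_lt continuous_const continuous_norm).mem_nhds
        (show R + 2 < ‖y‖ by linarith)] with y' h1
      exact ⟨by rw [hc0 y' (le_of_lt h1)]; exact mem_ball_self hη, fun _ => rfl⟩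
  obtain ⟨G, hG⟩ := exists_contMDiffMap_forall_mem_convex_of_local_const (n := 1) 𝓘(ℝ, E) ht hloc
  refine Pool.Agent.MP_ec11a7_an.H29.no_degenerate_map (fun y => y - G y)
    (contDiff_id.sub G.contMDiff.contDiff) (R + 3) (fun y hy => by rw [(hG y).2 hy, sub_zero])
    η hη fun y hy => absurd hy (not_lt.2 ?_)
  by_cases h : R + 3 ≤ ‖y‖
  · rw [(hG y).2 h, sub_zero]; linarith
  · have h1 : ‖y₀ - c y₀‖ ≤ ‖y - c y‖ := hy₀ (mem_closedBall_zero_iff.2 (not_le.1 h).le)
    have h2 : ‖G y - c y‖ < η := mem_ball_iff_norm.1 (hG y).1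
    have h3 := norm_add_le (y - G y) (G y - c y)
    rw [sub_add_sub_cancel] at h3
    linarith

theorem brouwer : Pool.Agent.MP_98f34a_gt.H5.BrouwerStmt := by
  rintro V _ g hg ⟨R, hR⟩
  let e := PiLp.continuousLinearEquiv 2 ℝ fun _ : V => ℝ
  obtain ⟨w, hw⟩ := brouwer_euclid (E := EuclideanSpace ℝ V) (fun y => e.symm (g (e y)))
    (by fun_prop) (‖(e.symm : (V → ℝ) →L[ℝ] EuclideanSpace ℝ V)‖ * R) fun w =>
      (e.symm : (V → ℝ) →L[ℝ] EuclideanSpace ℝ V).le_opNorm_of_le (hR _)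
  exact ⟨e w, by simpa using congrArg e hw⟩

end Pool.Agent.MP_98f34a_gt.H36
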